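import Pool.Agent.helper71.CL.Spec

set_option autoImplicit false

open MeasureTheory Set Filter Topology
open scoped ENNReal
open Pool.Agent.helper81.CW

noncomputable section

namespace Pool.Agent.CL

theorem BAL_scale (n : ℕ) (s r : ℝ) (hs : 0 ≤ s) (hr : 0 ≤ r) :
    volume (Metric.closedBall (0 : E n) (s * r)) =
      ENNReal.ofReal (s ^ n) * volume (Metric.closedBall (0 : E n) r) := by
  rw [Measure.addHaar_closedBall_mul volume (0 : E n) hs hr, finrank_euclideanSpace_fin]

/-- BAL -/
theorem BAL (hPRJ : PRJ_stmt) (hPIN : PIN_stmt) : BAL_stmt := by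
  intro d e α β r hα hβ hαβ hr
  obtain ⟨-, hnorm, -, -, -, -⟩ := hPRJ d e
  have h1 := hPIN d e ((Metric.closedBall (0 : E d) (√α * r)).indicator fun _ => (1 : ℝ≥0∞))
    ((Metric.closedBall (0 : E e) (√β * r)).indicator fun _ => (1 : ℝ≥0∞))
    (measurable_const.indicator Metric.isClosed_closedBall.measurableSet)
    (measurable_const.indicator Metric.isClosed_closedBall.measurableSet)
  rw [lintegral_indicator_const Metric.isClosed_closedBall.measurableSet,
    lintegral_indicator_const Metric.isClosed_closedBall.measurableSet, one_mul, one_mul,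
    BAL_scale d (√α) r (Real.sqrt_nonneg _) hr, BAL_scale e (√β) r (Real.sqrt_nonneg _) hr] at h1
  have h2 : ∫⁻ x : E (d + e), ((Metric.closedBall (0 : E d) (√α * r)).indicator fun _ => (1 : ℝ≥0∞))
      (p1 d e x) * ((Metric.closedBall (0 : E e) (√β * r)).indicator fun _ => (1 : ℝ≥0∞)) (p2 d e x) ≤
      volume (Metric.closedBall (0 : E (d + e)) r) := by
    have h3 : volume (Metric.closedBall (0 : E (d + e)) r) =
        ∫⁻ x : E (d + e), (Metric.closedBall (0 : E (d + e)) r).indicator (fun _ => (1 : ℝ≥0∞)) x := by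
      rw [lintegral_indicator_const Metric.isClosed_closedBall.measurableSet, one_mul]
    rw [h3]
    refine lintegral_mono fun x => ?_
    by_cases hx1 : p1 d e x ∈ Metric.closedBall (0 : E d) (√α * r)
    · by_cases hx2 : p2 d e x ∈ Metric.closedBall (0 : E e) (√β * r)
      · have hx : x ∈ Metric.closedBall (0 : E (d + e)) r := by
          rw [mem_closedBall_zero_iff] at hx1 hx2 ⊢
          have h4 := (hnorm x).2
          have h5 : ‖p1 d e x‖ ^ 2 ≤ (√α * r) ^ 2 := pow_le_pow_left₀ (norm_nonneg _) hx1 2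
          have h6 : ‖p2 d e x‖ ^ 2 ≤ (√β * r) ^ 2 := pow_le_pow_left₀ (norm_nonneg _) hx2 2
          rw [mul_pow, Real.sq_sqrt hα.le] at h5
          rw [mul_pow, Real.sq_sqrt hβ.le] at h6
          have h7 : ‖x‖ ^ 2 ≤ r ^ 2 := by
            rw [h4]
            calc ‖p1 d e x‖ ^ 2 + ‖p2 d e x‖ ^ 2 ≤ α * r ^ 2 + β * r ^ 2 := add_le_add h5 h6
              _ = r ^ 2 := by rw [← add_mul, hαβ, one_mul]
          exact le_of_sq_le_sq h7 hr
        rw [indicator_of_mem hx1, indicator_of_mem hx2, indicator_of_mem hx, mul_one]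
      · rw [indicator_of_notMem hx2, mul_zero]
        exact zero_le
    · rw [indicator_of_notMem hx1, zero_mul]
      exact zero_le
  rw [h1] at h2
  refine le_trans (le_of_eq ?_) h2
  rw [ENNReal.ofReal_mul (by positivity)]
  ring

end Pool.Agent.CL
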